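import Pool.Agent.Lib.MP_1c8e06_ag.AN.SU1
import Mathlib.LinearAlgebra.RootSystem.Base

set_option autoImplicit false

open Polynomial
open scoped Classical

namespace Pool.Agent.MP_1c8e06_ag.AN

noncomputable section

/-- The statement for the elements of order `p`: every subgroup of order `p` of `K` occurs as
inertia group of a cover with group `K`, and its conjugates generate `K`. -/
def OP (p : ℕ) (k : Type) [Field k] (K : Type) [Group K] : Prop :=
  ∀ (P : Type) [Group P] [Fintype P] [Fintype K] (i : P →* K), Function.Injective i →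
    Nat.card P = p → AJ.RE p k i ⊤ ∧ Subgroup.normalClosure (i.range : Set K) = ⊤

/-- The subgroup generated by the `M`-conjugates of the elements of `A`. -/
def clo {K : Type} [Group K] (M A : Subgroup K) : Subgroup K :=
  Subgroup.closure {y | ∃ m ∈ M, ∃ a ∈ A, y = m * a * m⁻¹}

/-- A parabolic system of the finite group `K` in characteristic `p`: a Sylow `p`-subgroup `U`,
subgroups `N j ≤ U ≤ M j` which generate `K`, `N j` normal in `M j`, such that no proper subgroup
of `U` contains the centre of `U`, is normalised by `U` and is closed under taking conjugates by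
elements of the `M j`; moreover every proper normal subgroup of `K` has order prime to `p`. -/
structure Par (p : ℕ) (K : Type) [Group K] (U : Subgroup K) {J : Type} (M N : J → Subgroup K) :
    Prop where
  sylow : ∃ S : Sylow p K, (S : Subgroup K) = U
  le_U : ∀ j, N j ≤ U
  U_le : ∀ j, U ≤ M j
  normal : ∀ j, ∀ m ∈ M j, ∀ n ∈ N j, m * n * m⁻¹ ∈ N j
  gen : ⨆ j, M j = ⊤
  closed : ∀ A : Subgroup K, A ≤ U → (∀ u ∈ U, ∀ a ∈ A, u * a * u⁻¹ ∈ A) →
    (∀ z ∈ U, (∀ u ∈ U, z * u = u * z) → z ∈ A) → (∀ j, clo (M j) A ⊓ U ≤ A) → A = U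
  simple : ∀ R : Subgroup K, R.Normal → R ≠ ⊤ → ¬ p ∣ Nat.card R

/-- The matrix `(1 t; 0 1)`. -/
def up {F : Type} [Field F] (t : F) : Matrix.SpecialLinearGroup (Fin 2) F :=
  ⟨!![1, t; 0, 1], by simp⟩

/-- The matrix `(1 0; t 1)`. -/
def lo {F : Type} [Field F] (t : F) : Matrix.SpecialLinearGroup (Fin 2) F :=
  ⟨!![1, 0; t, 1], by simp⟩

/-- The matrix `(0 -1; 1 0)`. -/
def wF (F : Type) [Field F] : Matrix.SpecialLinearGroup (Fin 2) F :=
  ⟨!![0, -1; 1, 0], by simp⟩

/-- The subgroup generated by the root groups of the positive roots. -/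
def posU {ι R M N : Type} [CommRing R] [CharZero R] [AddCommGroup M] [Module R M]
    [AddCommGroup N] [Module R N] {Φ : RootPairing ι R M N} (b : Φ.Base) {K : Type} [Group K]
    (X : ι → Subgroup K) : Subgroup K :=
  ⨆ i : {i // b.IsPos i}, X i

/-- The subgroup generated by the root groups of the positive roots other than `s`. -/
def Nb {ι R M N : Type} [CommRing R] [CharZero R] [AddCommGroup M] [Module R M]
    [AddCommGroup N] [Module R N] {Φ : RootPairing ι R M N} (b : Φ.Base) {K : Type} [Group K]
    (X : ι → Subgroup K) (s : ι) : Subgroup K :=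
  ⨆ i : {i // b.IsPos i ∧ i ≠ s}, X i

/-- The subgroup generated by the root groups of the positive roots and of the root `-s`. -/
def Mb {ι R M N : Type} [CommRing R] [CharZero R] [AddCommGroup M] [Module R M]
    [AddCommGroup N] [Module R N] {Φ : RootPairing ι R M N} (b : Φ.Base) {K : Type} [Group K]
    (X : ι → Subgroup K) (s : ι) : Subgroup K :=
  posU b X ⊔ X (Φ.reflectionPerm s s)

/-- A finite group `K` of Lie type in characteristic `p`, with the root system `Φ` with base `b`:
`X i` is the root subgroup of the root with index `i`. -/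
structure RootGroups (p : ℕ) {ι R M N : Type} [CommRing R] [CharZero R] [AddCommGroup M]
    [Module R M] [AddCommGroup N] [Module R N] (Φ : RootPairing ι R M N) [Φ.IsCrystallographic]
    (b : Φ.Base) (K : Type) [Group K] (X : ι → Subgroup K) : Prop where
  gen : ⨆ i, X i = ⊤
  sylow : ∃ S : Sylow p K, (S : Subgroup K) = posU b X
  comm : ∀ i j, i ≠ j → Φ.root i ≠ -Φ.root j → ∀ x ∈ X i, ∀ y ∈ X j,
    x * y * x⁻¹ * y⁻¹ ∈ ⨆ l : {l // ∃ m n : ℕ, 0 < m ∧ 0 < n ∧
      Φ.root l = m • Φ.root i + n • Φ.root j}, X l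
  levi : ∀ i ∈ b.support, ∃ (F : Type) (_ : Field F) (_ : Finite F) (_ : CharP F p)
    (φ : Matrix.SpecialLinearGroup (Fin 2) F →* K), (X i : Set K) = Set.range (fun t => φ (up t)) ∧
      (X (Φ.reflectionPerm i i) : Set K) = Set.range (fun t => φ (lo t)) ∧
      ∀ j, ∀ x ∈ X j, φ (wF F) * x * (φ (wF F))⁻¹ ∈ X (Φ.reflectionPerm i j)
  short : ∀ i, b.IsPos i → ∀ j ∈ b.support, ∀ l, Φ.root l = Φ.root i + Φ.root j →
    0 ≤ Φ.pairingIn ℤ i j → (∀ x ∈ X i, ∀ u ∈ posU b X, x * u = u * x) ∨
      X i ≤ clo (X j ⊔ X (Φ.reflectionPerm j j)) (X l)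
  simple : ∀ R : Subgroup K, R.Normal → R ≠ ⊤ → ¬ p ∣ Nat.card R

/-- The class of the groups which are treated: finite groups of order prime to `p`, quotients of
`SL_2(F)`, quotients of `SL_n(F)` by central subgroups (`F` a finite field of characteristic `p`),
quotients of `SU_3(F)` by central subgroups (`p` odd), alternating groups of degree at least
`p + 2` (`p` odd), groups of Lie type in characteristic `p`, and groups with a parabolic system
whose factors `M j / N j` are in the class. -/
inductive Good (p : ℕ) : (K : Type) → Group K → Prop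
  | prime_to (K : Type) [Group K] (h : ¬ p ∣ Nat.card K) : Good p K inferInstance
  | sl2 (K : Type) [Group K] (F : Type) [Field F] [Finite F] [CharP F p]
      (ψ : Matrix.SpecialLinearGroup (Fin 2) F →* K) (hψ : Function.Surjective ψ) :
      Good p K inferInstance
  | sl (K : Type) [Group K] (n : ℕ) (F : Type) [Field F] [Finite F] [CharP F p]
      (ψ : Matrix.SpecialLinearGroup (Fin n) F →* K) (hψ : Function.Surjective ψ)
      (hker : ψ.ker ≤ Subgroup.center (Matrix.SpecialLinearGroup (Fin n) F)) :
      Good p K inferInstance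
  | su3 (K : Type) [Group K] (hp : p ≠ 2) (F : Type) [Field F] [Finite F] [CharP F p]
      (σ : F ≃+* F) (hs : ∀ x, σ (σ x) = x) (h1 : ∃ x, σ x ≠ x) (ψ : SU3 F σ →* K)
      (hψ : Function.Surjective ψ) (hker : ψ.ker ≤ Subgroup.center (SU3 F σ)) :
      Good p K inferInstance
  | alt (K : Type) [Group K] (n : ℕ) (hn : p + 2 ≤ n) (hp : p ≠ 2)
      (e : K ≃* alternatingGroup (Fin n)) : Good p K inferInstance
  | lie (K : Type) [Group K] {ι R M N : Type} [Finite ι] [CommRing R] [IsDomain R] [CharZero R]
      [AddCommGroup M] [Module R M] [AddCommGroup N] [Module R N] (Φ : RootPairing ι R M N)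
      [Φ.IsCrystallographic] [Φ.IsReduced] (b : Φ.Base) (X : ι → Subgroup K)
      (h : RootGroups p Φ b K X) : Good p K inferInstance
  | par (K : Type) [Group K] (U : Subgroup K) {J : Type} (M N : J → Subgroup K)
      (h : Par p K U M N) (H : J → Type) (gH : ∀ j, Group (H j)) (f : ∀ j, M j →* H j)
      (hf : ∀ j, Function.Surjective (f j)) (hk : ∀ j, ∀ m : M j, f j m = 1 ↔ (m : K) ∈ N j)
      (hH : ∀ j, Good p (H j) (gH j)) : Good p K inferInstance

end

end Pool.Agent.MP_1c8e06_ag.AN
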