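import Pool.Agent.Lib.MP_1c8e06_ag.Mg.G089
import Pool.Agent.Lib.MP_1c8e06_ag.Mg.G073
import Pool.Agent.Lib.MP_1c8e06_ag.Mg.G084
import Pool.Agent.Lib.MP_1c8e06_ag.Mg.G072
import Pool.Agent.Lib.MP_1c8e06_ag.Mg.G059

set_option autoImplicit false

open scoped Classical

namespace Pool.Agent.MP_1c8e06_ag.AN

noncomputable section

/-!
# Task SU3o: `OP` for the central quotients of `SU_3` (assembly)

Let `i : P →* K` be injective, `Nat.card P = p`, `u₀` a generator, `x := i u₀` of order `p`.  `G := SU3 F σ` (a finite group, as a type).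
1. Lift: there is `y : G` with `ψ y = x`, `y ^ p = 1`, `y ≠ 1`: choose `y₁` with `ψ y₁ = x`; `z := y₁ ^ p ∈ ψ.ker` is central, `z ^ 3 = 1` (`SU3_center`), and `z = 1` if `p = 3`.  If `p ≠ 3` there is `m : ℕ` with `(z ^ m) ^ p = z` (`p m ≡ 1 [MOD 3]`); `y := y₁ * (z ^ m)⁻¹`
   (compare `AL.exists_lift` in `AL/QT.lean`).
2. `AL.exists_largest i hi hcard` (`AL/CR1.lean`): `R`; `Y₀ := Subgroup.normalizer (R : Set K)`; elements commuting with `x` are in `Y₀` (see `AL/CR2.lean`); `Y := (Y₀.comap ψ).map G.subtype`.  `SU3_all` for `y`, `Y`: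
   `hC`: `z ∈ G` commuting with `y`: `ψ z` commutes with `x`.  `hφ`: `φ' := φ.codRestrict G _ : SL_2(F₀) →* G`, `L := (ψ.comp φ').range : Subgroup K`, `x ∈ L`, `op_sl2 (fixF σ) (ψ.comp φ').rangeRestrict _ : OP p k L` (instances `fix_inst`); apply it to
   `i.codRestrict L _` : `RE p k _ ⊤`, so `RE p k i L` (`AJ.re_sub`), `L ≤ R ≤ Y₀`.
   So `Y = G`, `Y₀ = ⊤` (`ψ` surjective), `R` is normal.
3. For every normal subgroup `R' ` of `K` containing `x`: `(R'.comap ψ).map G.subtype = G` by `SU3_normal`, so `R' = ⊤`.  Apply it to `R` (`RE p k i ⊤`) and to `Subgroup.normalClosure i.range`.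
-/

private theorem SU3o_lift {p : ℕ} [hp : Fact p.Prime] (hp2 : p ≠ 2) {K : Type} [Group K]
    (F : Type) [Field F] [Finite F] [CharP F p] (σ : F ≃+* F)
    (hs : ∀ x, σ (σ x) = x) (h1 : ∃ x, σ x ≠ x) (ψ : SU3 F σ →* K) (hψ : Function.Surjective ψ)
    (hker : ψ.ker ≤ Subgroup.center (SU3 F σ)) (x : K) (hx : orderOf x = p) :
    ∃ y : SU3 F σ, ψ y = x ∧ y ^ p = 1 ∧ y ≠ 1 := by
  obtain ⟨y₁, hy₁⟩ := hψ x
  have hxp : x ^ p = 1 := by rw [← hx]; exact pow_orderOf_eq_one x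
  have hz : y₁ ^ p ∈ ψ.ker := by
    rw [MonoidHom.mem_ker, map_pow, hy₁, hxp]
  have hzc := Subgroup.mem_center_iff.1 (hker hz)
  obtain ⟨z3, z1⟩ := SU3_center hp2 σ hs h1 ((y₁ ^ p : SU3 F σ) : Matrix.SpecialLinearGroup (Fin 3) F)
    (y₁ ^ p).2 (fun g hg => congrArg Subtype.val (hzc ⟨g, hg⟩))
  have z3' : (y₁ ^ p) ^ 3 = 1 := Subtype.ext z3
  have hm : ∃ m : ℕ, ((y₁ ^ p) ^ m) ^ p = y₁ ^ p := by
    by_cases h3 : p = 3
    · have z1' : y₁ ^ p = 1 := Subtype.ext (z1 h3)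
      exact ⟨0, by rw [z1', one_pow, one_pow]⟩
    · refine ⟨p, ?_⟩
      have h4 : ¬ 3 ∣ p := by
        intro h
        rcases (Nat.dvd_prime hp.out).1 h with h5 | h5
        · omega
        · exact h3 h5.symm
      have h5 : p * p % 3 = 1 := by
        have h6 : p % 3 = 1 ∨ p % 3 = 2 := by omega
        rw [Nat.mul_mod]
        rcases h6 with h6 | h6 <;> rw [h6]
      rw [← pow_mul]
      have h7 : p * p = 3 * (p * p / 3) + 1 := by omega
      rw [h7, pow_add, pow_mul, z3', one_pow, one_mul, pow_one]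
  obtain ⟨m, hm⟩ := hm
  have hz' : (y₁ ^ p) ^ m ∈ ψ.ker := ψ.ker.pow_mem hz m
  have hc := Subgroup.mem_center_iff.1 (hker hz')
  set z := (y₁ ^ p) ^ m with hzdef
  have g1 : ψ (y₁ * z⁻¹) = x := by
    rw [map_mul, map_inv, hy₁, MonoidHom.mem_ker.1 hz', inv_one, mul_one]
  have g2 : (y₁ * z⁻¹) ^ p = 1 := by
    have hcomm : Commute y₁ z⁻¹ := Commute.inv_right (hc y₁)
    rw [hcomm.mul_pow, inv_pow, hm, mul_inv_cancel]
  have g3 : y₁ * z⁻¹ ≠ 1 := by
    intro h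
    rw [h, map_one] at g1
    rw [← g1, orderOf_one] at hx
    exact hp.out.one_lt.ne hx
  exact ⟨y₁ * z⁻¹, g1, g2, g3⟩

/-- A subgroup of `K` whose preimage is everything. -/
private theorem SU3o_top {K : Type} [Group K] {F : Type} [Field F] {σ : F ≃+* F}
    (ψ : SU3 F σ →* K) (hψ : Function.Surjective ψ) (R : Subgroup K)
    (h : (R.comap ψ).map (SU3 F σ).subtype = SU3 F σ) : R = ⊤ := by
  rw [eq_top_iff]
  intro w _
  obtain ⟨g, rfl⟩ := hψ w
  have h1 : (g : Matrix.SpecialLinearGroup (Fin 3) F) ∈ (R.comap ψ).map (SU3 F σ).subtype := by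
    rw [h]
    exact g.2
  obtain ⟨g', h2, h3⟩ := h1
  have h4 : g' = g := Subtype.ext h3
  rw [h4] at h2
  exact h2

theorem op_su3 {p : ℕ} [hp : Fact p.Prime] (hp2 : p ≠ 2) {k : Type} [Field k] [IsAlgClosed k]
    [CharP k p] {K : Type} [Group K] (F : Type) [Field F] [Finite F] [CharP F p] (σ : F ≃+* F)
    (hs : ∀ x, σ (σ x) = x) (h1 : ∃ x, σ x ≠ x) (ψ : SU3 F σ →* K) (hψ : Function.Surjective ψ)
    (hker : ψ.ker ≤ Subgroup.center (SU3 F σ)) : OP p k K := by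
  intro P _ _ _ i hi hcard
  have : IsCyclic P := isCyclic_of_prime_card hcard
  obtain ⟨u₀, hu₀⟩ := IsCyclic.exists_generator (α := P)
  have hord : orderOf u₀ = p := by rw [orderOf_eq_card_of_forall_mem_zpowers hu₀, hcard]
  have hgenP : ∀ u : P, ∃ n : ℕ, u = u₀ ^ n := by
    intro u
    obtain ⟨n, hn⟩ := (isOfFinOrder_of_finite u₀).mem_powers_iff_mem_zpowers.2 (hu₀ u)
    exact ⟨n, hn.symm⟩
  have hx : orderOf (i u₀) = p := by rw [orderOf_injective i hi, hord]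
  obtain ⟨y, hyx, hyp, hy1⟩ := SU3o_lift hp2 F σ hs h1 ψ hψ hker (i u₀) hx
  have hyp' : (y : Matrix.SpecialLinearGroup (Fin 3) F) ^ p = 1 := congrArg Subtype.val hyp
  have hy1' : (y : Matrix.SpecialLinearGroup (Fin 3) F) ≠ 1 := fun h => hy1 (Subtype.ext h)
  -- normal subgroups
  have hnorm : ∀ R : Subgroup K, R.Normal → i u₀ ∈ R → R = ⊤ := by
    intro R hR hxR
    apply SU3o_top ψ hψ
    refine SU3_normal hp2 σ hs h1 y y.2 hyp' hy1' _ (Subgroup.map_subtype_le _) ?_ ?_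
    · rintro g hg _ ⟨r, hr, rfl⟩
      refine ⟨⟨g, hg⟩ * r * (⟨g, hg⟩ : SU3 F σ)⁻¹, ?_, rfl⟩
      have h2 : ψ (⟨g, hg⟩ * r * (⟨g, hg⟩ : SU3 F σ)⁻¹) ∈ R := by
        rw [map_mul, map_mul, map_inv]
        exact hR.conj_mem _ hr _
      exact h2
    · refine ⟨y, ?_, rfl⟩
      have h2 : ψ y ∈ R := by rw [hyx]; exact hxR
      exact h2
  obtain ⟨R, hR, hmax, hle, hconj⟩ := AL.exists_largest (k := k) i hi hcard
  have hC : ∀ z : K, z * i u₀ = i u₀ * z → z ∈ Subgroup.normalizer (R : Set K) := by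
    intro z hz
    have h2 : ∀ z : K, z * i u₀ = i u₀ * z → ∀ u, z * i u = i u * z := by
      intro z hz u
      obtain ⟨n, rfl⟩ := hgenP u
      rw [map_pow]
      exact (Commute.pow_right (show Commute z (i u₀) from hz) n).eq
    rw [Subgroup.mem_normalizer_iff]
    intro x
    constructor
    · exact hconj z (h2 z hz) x
    · intro hx
      have h3 : z⁻¹ * i u₀ = i u₀ * z⁻¹ := (Commute.inv_left (show Commute z (i u₀) from hz)).eq
      have h4 := hconj z⁻¹ (h2 z⁻¹ h3) _ hx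
      have h5 : z⁻¹ * (z * x * z⁻¹) * z⁻¹⁻¹ = x := by group
      rwa [h5] at h4
  have hRY : R ≤ Subgroup.normalizer (R : Set K) := Subgroup.le_normalizer
  obtain ⟨I1, I2⟩ := fix_inst (p := p) σ
  have hYt : Subgroup.normalizer (R : Set K) = ⊤ := by
    apply SU3o_top ψ hψ
    refine SU3_all hp2 σ hs h1 y y.2 hyp' hy1' _ (Subgroup.map_subtype_le _) ?_ ?_
    · intro z hz hzy
      refine ⟨⟨z, hz⟩, ?_, rfl⟩
      have h2 : ψ ⟨z, hz⟩ ∈ Subgroup.normalizer (R : Set K) := by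
        apply hC
        rw [← hyx, ← map_mul, ← map_mul]
        exact congrArg ψ (Subtype.ext hzy)
      exact h2
    · rintro φ hφ1 ⟨g₀, hg₀⟩ g
      have hsurj : Function.Surjective (ψ.comp (φ.codRestrict (SU3 F σ) hφ1)).rangeRestrict :=
        MonoidHom.rangeRestrict_surjective _
      have hop : OP p k (ψ.comp (φ.codRestrict (SU3 F σ) hφ1)).range :=
        op_sl2 (fixF σ) (ψ.comp (φ.codRestrict (SU3 F σ) hφ1)).rangeRestrict hsurj
      have hxL : i u₀ ∈ (ψ.comp (φ.codRestrict (SU3 F σ) hφ1)).range := by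
        refine ⟨g₀, ?_⟩
        rw [← hyx, MonoidHom.comp_apply]
        exact congrArg ψ (Subtype.ext hg₀)
      have hiL : ∀ u, i u ∈ (ψ.comp (φ.codRestrict (SU3 F σ) hφ1)).range := by
        intro u
        obtain ⟨n, rfl⟩ := hgenP u
        rw [map_pow]
        exact Subgroup.pow_mem _ hxL n
      have h3 : AJ.RE p k i (ψ.comp (φ.codRestrict (SU3 F σ) hφ1)).range := by
        refine AJ.re_sub i _ hiL (hop P (i.codRestrict _ hiL) ?_ hcard).1
        intro a b hab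
        exact hi (congrArg Subtype.val hab)
      refine ⟨φ.codRestrict (SU3 F σ) hφ1 g, ?_, rfl⟩
      have h4 : ψ (φ.codRestrict (SU3 F σ) hφ1 g) ∈ Subgroup.normalizer (R : Set K) :=
        hRY (hmax _ h3 ⟨g, rfl⟩)
      exact h4
  have hRn : R.Normal := Subgroup.normalizer_eq_top_iff.1 hYt
  have hRt : R = ⊤ := hnorm R hRn (hle ⟨u₀, rfl⟩)
  rw [hRt] at hR
  exact ⟨hR, hnorm _ Subgroup.normalClosure_normal (Subgroup.subset_normalClosure ⟨u₀, rfl⟩)⟩

end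

end Pool.Agent.MP_1c8e06_ag.AN
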