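import Pool.Agent.Lib.MP_1c8e06_ag.Mg.G085
import Pool.Agent.Lib.MP_1c8e06_ag.AN.SU3o
import Pool.Agent.Lib.MP_1c8e06_ag.Mg.G086

set_option autoImplicit false

open scoped Classical

namespace Pool.Agent.MP_1c8e06_ag.AN

noncomputable section

theorem good_op {p : ℕ} [hp : Fact p.Prime] {k : Type} [Field k] [IsAlgClosed k] [CharP k p]
    {K : Type} {gK : Group K} (h : Good p K gK) : Finite K → OP p k K := by
  induction h with
  | prime_to K h => exact fun _ => OP.of_not_dvd h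
  | sl2 K F ψ hψ => exact fun _ => op_sl2 F ψ hψ
  | sl K n F ψ hψ hker => exact fun _ => op_sl n F ψ hψ hker
  | su3 K hp2 F σ hs h1 ψ hψ hker => exact fun _ => op_su3 hp2 F σ hs h1 ψ hψ hker
  | alt K n hn hp e => exact fun _ => op_alt n hn hp e
  | lie K Φ b X h => exact fun _ => lie_op Φ b X h
  | par K U M N h H gH f hf hk hH ih =>
    intro hK
    exact par_op U M N h H gH f hf hk fun j => ih j (Finite.of_surjective (f j) (hf j))

theorem main {p : ℕ} (hp : p.Prime) (k : Type) [Field k] [IsAlgClosed k] [CharP k p]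
    {G : Type} [Group G] [Finite G] (N : Subgroup G) [N.Normal] (hN : IsPGroup p N)
    {A : Type} [Finite A] (Kf : A → Subgroup (G ⧸ N))
    (hcomm : ∀ a b, a ≠ b → ∀ x ∈ Kf a, ∀ y ∈ Kf b, x * y = y * x) (hgen : ⨆ a, Kf a = ⊤)
    (hgood : ∀ a, Good p (Kf a) inferInstance)
    (hna : ∀ a, ∃ x ∈ Kf a, ∃ y ∈ Kf a, x * y ≠ y * x) (hd : ∀ a, p ∣ Nat.card (Kf a))
    (P : Subgroup G) (hP : IsPGroup p P) (hPgen : Subgroup.normalClosure (P : Set G) = ⊤) :
    AI.Realised k G P := by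
  haveI : Fact p.Prime := ⟨hp⟩
  exact prod_realised k N hN Kf hcomm hgen (fun a => good_op (hgood a) inferInstance) hna hd P hP
    hPgen

end

end Pool.Agent.MP_1c8e06_ag.AN
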