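import Pool.Agent.Lib.MP_1c8e06_ag.AL.Defs

set_option autoImplicit false

namespace Pool.Agent.MP_1c8e06_ag.AN

/-- The antidiagonal matrix with entries `1`. -/
def J3 (F : Type) [Field F] : Matrix (Fin 3) (Fin 3) F := !![0, 0, 1; 0, 1, 0; 1, 0, 0]

theorem J3_mul {F : Type} [Field F] : J3 F * J3 F = 1 := by
  ext i j
  fin_cases i <;> fin_cases j <;> simp [J3, Matrix.mul_apply, Fin.sum_univ_three]

/-- The special unitary group of degree `3`: the matrices `A` in `SL_3(F)` with `A J σ(A)ᵀ = J`,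
`J` antidiagonal. -/
def SU3 (F : Type) [Field F] (σ : F ≃+* F) : Subgroup (Matrix.SpecialLinearGroup (Fin 3) F) where
  carrier := {A | (A : Matrix (Fin 3) (Fin 3) F) * J3 F *
    ((A : Matrix (Fin 3) (Fin 3) F).map σ).transpose = J3 F}
  one_mem' := by
    change ((1 : Matrix.SpecialLinearGroup (Fin 3) F) : Matrix (Fin 3) (Fin 3) F) * J3 F *
      (((1 : Matrix.SpecialLinearGroup (Fin 3) F) : Matrix (Fin 3) (Fin 3) F).map σ).transpose = J3 F
    rw [Matrix.SpecialLinearGroup.coe_one, Matrix.map_one σ (map_zero σ) (map_one σ),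
      Matrix.transpose_one, Matrix.one_mul, Matrix.mul_one]
  mul_mem' := by
    intro A B hA hB
    change ((A * B : Matrix.SpecialLinearGroup (Fin 3) F) : Matrix (Fin 3) (Fin 3) F) * J3 F *
      (((A * B : Matrix.SpecialLinearGroup (Fin 3) F) : Matrix (Fin 3) (Fin 3) F).map σ).transpose = J3 F
    change (A : Matrix (Fin 3) (Fin 3) F) * J3 F *
      ((A : Matrix (Fin 3) (Fin 3) F).map σ).transpose = J3 F at hA
    change (B : Matrix (Fin 3) (Fin 3) F) * J3 F *
      ((B : Matrix (Fin 3) (Fin 3) F).map σ).transpose = J3 F at hB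
    rw [Matrix.SpecialLinearGroup.coe_mul, Matrix.map_mul, Matrix.transpose_mul]
    calc _ = (A : Matrix (Fin 3) (Fin 3) F) * ((B : Matrix (Fin 3) (Fin 3) F) * J3 F *
          ((B : Matrix (Fin 3) (Fin 3) F).map σ).transpose) *
          ((A : Matrix (Fin 3) (Fin 3) F).map σ).transpose := by
            simp only [Matrix.mul_assoc]
      _ = _ := by rw [hB, hA]
  inv_mem' := by
    intro A hA
    change (A : Matrix (Fin 3) (Fin 3) F) * J3 F *
      ((A : Matrix (Fin 3) (Fin 3) F).map σ).transpose = J3 F at hA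
    change ((A⁻¹ : Matrix.SpecialLinearGroup (Fin 3) F) : Matrix (Fin 3) (Fin 3) F) * J3 F *
      (((A⁻¹ : Matrix.SpecialLinearGroup (Fin 3) F) : Matrix (Fin 3) (Fin 3) F).map σ).transpose = J3 F
    have h1 : ((A⁻¹ : Matrix.SpecialLinearGroup (Fin 3) F) : Matrix (Fin 3) (Fin 3) F) *
        (A : Matrix (Fin 3) (Fin 3) F) = 1 := by
      rw [← Matrix.SpecialLinearGroup.coe_mul, inv_mul_cancel, Matrix.SpecialLinearGroup.coe_one]
    have h2 : ((A : Matrix (Fin 3) (Fin 3) F).map σ).transpose *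
        (((A⁻¹ : Matrix.SpecialLinearGroup (Fin 3) F) : Matrix (Fin 3) (Fin 3) F).map σ).transpose
          = 1 := by
      rw [← Matrix.transpose_mul, ← Matrix.map_mul, h1, Matrix.map_one σ (map_zero σ) (map_one σ),
        Matrix.transpose_one]
    calc _ = ((A⁻¹ : Matrix.SpecialLinearGroup (Fin 3) F) : Matrix (Fin 3) (Fin 3) F) *
          ((A : Matrix (Fin 3) (Fin 3) F) * J3 F * ((A : Matrix (Fin 3) (Fin 3) F).map σ).transpose) *
          (((A⁻¹ : Matrix.SpecialLinearGroup (Fin 3) F) : Matrix (Fin 3) (Fin 3) F).map σ).transpose := by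
            rw [hA]
      _ = (((A⁻¹ : Matrix.SpecialLinearGroup (Fin 3) F) : Matrix (Fin 3) (Fin 3) F) *
          (A : Matrix (Fin 3) (Fin 3) F)) * J3 F * (((A : Matrix (Fin 3) (Fin 3) F).map σ).transpose *
          (((A⁻¹ : Matrix.SpecialLinearGroup (Fin 3) F) : Matrix (Fin 3) (Fin 3) F).map σ).transpose) := by
            simp only [Matrix.mul_assoc]
      _ = J3 F := by rw [h1, h2, Matrix.one_mul, Matrix.mul_one]

section
variable {F : Type} [Field F] (σ : F ≃+* F)

/-- The upper unitriangular elements. -/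
def uU (a b : F) : Matrix.SpecialLinearGroup (Fin 3) F :=
  ⟨!![1, -σ a, b; 0, 1, a; 0, 0, 1], by simp [Matrix.det_fin_three]⟩

/-- The condition for `uU a b` to be unitary. -/
def valid (a b : F) : Prop := b + σ b + a * σ a = 0

/-- The element which interchanges the two isotropic basis vectors. -/
def nU (F : Type) [Field F] : Matrix.SpecialLinearGroup (Fin 3) F :=
  ⟨!![0, 0, 1; 0, -1, 0; 1, 0, 0], by simp [Matrix.det_fin_three]⟩

/-- The diagonal elements. -/
def hU (l : Fˣ) : Matrix.SpecialLinearGroup (Fin 3) F :=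
  ⟨!![(l : F), 0, 0; 0, σ l / l, 0; 0, 0, (σ l)⁻¹], by
    have h1 : (l : F) ≠ 0 := l.ne_zero
    have h2 : σ l ≠ 0 := fun h => h1 ((map_eq_zero σ).1 h)
    simp only [Matrix.det_fin_three, Matrix.of_apply, Matrix.cons_val', Matrix.cons_val_zero,
      Matrix.cons_val_one, Matrix.cons_val, mul_zero, zero_mul, sub_zero, add_zero]
    field_simp⟩

end

/-- The fixed field. -/
def fixF {F : Type} [Field F] (σ : F ≃+* F) : Subfield F where
  carrier := {x | σ x = x}
  mul_mem' := by
    intro a b ha hb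
    change σ (a * b) = a * b
    rw [map_mul, ha, hb]
  one_mem' := map_one σ
  add_mem' := by
    intro a b ha hb
    change σ (a + b) = a + b
    rw [map_add, ha, hb]
  zero_mem' := map_zero σ
  neg_mem' := by
    intro a ha
    change σ (-a) = -a
    rw [map_neg, ha]
  inv_mem' := by
    intro a ha
    change σ a⁻¹ = a⁻¹
    rw [map_inv₀, ha]

end Pool.Agent.MP_1c8e06_ag.AN
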